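import Pool.Agent.W770.PC.Stms

set_option autoImplicit false

open MeasureTheory Set Filter Topology
open scoped ENNReal NNReal

namespace Pool.Agent.W912.PC

open Pool.Agent.W770.PC

theorem ee_add (x y : ℝ) : ee (x + y) = ee x * ee y := by
  unfold ee
  rw [← Complex.exp_add]
  congr 1
  push_cast
  ring

theorem norm_ee (x : ℝ) : ‖ee x‖ = 1 := by
  unfold ee
  exact Complex.norm_exp_ofReal_mul_I x

theorem contDiff_ee : ContDiff ℝ (⊤ : ℕ∞) ee := by
  unfold ee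
  exact (Complex.ofRealCLM.contDiff.mul contDiff_const).cexp

theorem continuous_ee : Continuous ee := contDiff_ee.continuous

theorem mem_cell (a : ℕ) (k : ℕ × ℕ) (y : ℝ × ℝ) : y ∈ cell a k ↔
    |y.1 - (cen a k).1| ≤ (2 ^ a)⁻¹ ∧ |y.2 - (cen a k).2| ≤ (2 ^ a)⁻¹ := by
  unfold cell cen
  have h2 : (0 : ℝ) < 2 ^ a := by positivity
  simp only [mem_prod, mem_Icc, abs_le, sub_div, add_div, one_div]
  constructor
  · rintro ⟨⟨h, h'⟩, h'', h'''⟩
    exact ⟨⟨by linarith, by linarith⟩, by linarith, by linarith⟩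
  · rintro ⟨⟨h, h'⟩, h'', h'''⟩
    exact ⟨⟨by linarith, by linarith⟩, by linarith, by linarith⟩

/-- one-dimensional estimate applied in the first variable -/
theorem lemA (h2 : S_osc) (b : ℝ × ℝ → ℂ) (hb : ContDiff ℝ (⊤ : ℕ∞) b) (hc : HasCompactSupport b)
    (w : ℝ × ℝ) (s K : ℝ) (hs : 0 < s) (hvan : ∀ y, (s < |y.1 - w.1| ∨ s < |y.2 - w.2|) → b y = 0)
    (hK : ∀ y, ‖b y‖ ≤ K)
    (hd : ∀ y : ℝ × ℝ, ‖iteratedDeriv 3 (fun u => b (u, y.2)) y.1‖ ≤ K / s ^ 3) (η1 η2 : ℝ) :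
    ‖∫ y, b y * ee (η1 * y.1 + η2 * y.2)‖ ≤ 32 * K * s ^ 2 * ((1 + s * |η1|) ^ 3)⁻¹ := by
  have hcont : Continuous fun y : ℝ × ℝ => b y * ee (η1 * y.1 + η2 * y.2) :=
    hb.continuous.mul (continuous_ee.comp (by fun_prop))
  have hint : Integrable (fun y : ℝ × ℝ => b y * ee (η1 * y.1 + η2 * y.2)) :=
    hcont.integrable_of_hasCompactSupport hc.mul_right
  have hK0 : 0 ≤ K := (norm_nonneg _).trans (hK w)
  set M : ℝ := 16 * K * s * ((1 + s * |η1|) ^ 3)⁻¹ with hM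
  have hM0 : 0 ≤ M := by positivity
  rw [Measure.volume_eq_prod, integral_prod_symm _ hint]
  have hin : ∀ v : ℝ, ‖∫ u, b (u, v) * ee (η1 * u + η2 * v)‖ ≤
      (Icc (w.2 - s) (w.2 + s)).indicator (fun _ => M) v := by
    intro v
    by_cases hv : v ∈ Icc (w.2 - s) (w.2 + s)
    · rw [indicator_of_mem hv]
      have h3 : ∀ u, b (u, v) * ee (η1 * u + η2 * v) = b (u, v) * ee (η1 * u) * ee (η2 * v) := by
        intro u
        rw [ee_add]; ring
      simp_rw [h3]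
      rw [integral_mul_const, norm_mul, norm_ee, mul_one]
      refine h2 (fun u => b (u, v)) w.1 s K ?_ hs ?_ ?_ ?_ η1
      · exact hb.comp (contDiff_id.prodMk contDiff_const)
      · intro u hu
        exact hvan _ (Or.inl hu)
      · intro u
        exact hK _
      · intro u
        exact hd (u, v)
    · rw [indicator_of_notMem hv]
      have h3 : ∀ u, b (u, v) * ee (η1 * u + η2 * v) = 0 := by
        intro u
        rw [hvan (u, v), zero_mul]
        right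
        rw [mem_Icc, not_and_or, not_le, not_le] at hv
        rw [lt_abs]
        rcases hv with hv | hv
        · right; simp only; linarith
        · left; simp only; linarith
      simp [h3]
  refine (norm_integral_le_of_norm_le ?_ (Eventually.of_forall hin)).trans ?_
  · exact (integrable_indicator_iff measurableSet_Icc).2 (integrableOn_const (by simp))
  · rw [integral_indicator measurableSet_Icc, setIntegral_const, smul_eq_mul]
    simp only [Measure.real, Real.volume_Icc]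
    rw [ENNReal.toReal_ofReal (by linarith)]
    rw [hM]
    apply le_of_eq
    ring

theorem lemA' (h2 : S_osc) (b : ℝ × ℝ → ℂ) (hb : ContDiff ℝ (⊤ : ℕ∞) b) (hc : HasCompactSupport b)
    (w : ℝ × ℝ) (s K : ℝ) (hs : 0 < s) (hvan : ∀ y, (s < |y.1 - w.1| ∨ s < |y.2 - w.2|) → b y = 0)
    (hK : ∀ y, ‖b y‖ ≤ K)
    (hd : ∀ y : ℝ × ℝ, ‖iteratedDeriv 3 (fun v => b (y.1, v)) y.2‖ ≤ K / s ^ 3) (η1 η2 : ℝ) :
    ‖∫ y, b y * ee (η1 * y.1 + η2 * y.2)‖ ≤ 32 * K * s ^ 2 * ((1 + s * |η2|) ^ 3)⁻¹ := by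
  have h3 := lemA h2 (fun y => b y.swap) (hb.comp (contDiff_snd.prodMk contDiff_fst))
    (hc.comp_homeomorph (Homeomorph.prodComm ℝ ℝ)) w.swap s K hs
    (fun y hy => hvan y.swap hy.symm) (fun y => hK _) (fun y => hd y.swap) η2 η1
  have h4 : ∫ y : ℝ × ℝ, b y.swap * ee (η2 * y.1 + η1 * y.2) =
      ∫ y : ℝ × ℝ, b y * ee (η1 * y.1 + η2 * y.2) := by
    rw [Measure.volume_eq_prod]
    rw [← integral_prod_swap (fun y : ℝ × ℝ => b y.swap * ee (η2 * y.1 + η1 * y.2))]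
    refine integral_congr_ae (Eventually.of_forall fun y => ?_)
    simp only [Prod.swap_swap, Prod.fst_swap, Prod.snd_swap]
    rw [add_comm]
  rwa [h4] at h3

/-- product of the one-dimensional bounds -/
theorem lemP (h3 : S_sc) (S B Cg C : ℝ) (hS : 1 ≤ S) (hB : 0 ≤ B) (hC : 0 ≤ C)
    (ψ : ℝ → ℂ) (G β R : ℝ → ℝ)
    (hψ : ContDiff ℝ (⊤ : ℕ∞) ψ) (hG : ContDiff ℝ (⊤ : ℕ∞) G) (hβ : ContDiff ℝ (⊤ : ℕ∞) β)
    (hR : ContDiff ℝ (⊤ : ℕ∞) R) (u : ℝ) (bψ : ∀ j ≤ 3, ‖iteratedDeriv j ψ u‖ ≤ B)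
    (bG : ∀ j ≤ 3, |iteratedDeriv j G u| ≤ Cg * S ^ j)
    (bβ : ∀ j ≤ 3, |iteratedDeriv j β u| ≤ Cg * S ^ j)
    (r1 : |iteratedDeriv 1 R u| ≤ C * S) (r2 : |iteratedDeriv 2 R u| ≤ C * S ^ 2)
    (r3 : |iteratedDeriv 3 R u| ≤ C * S ^ 3) :
    Sc S (8 * (8 * B * (8 * Cg * Cg)) * (1 + C) ^ 3)
      (fun u => ψ u * ((G u * β u : ℝ) : ℂ) * ee (R u)) u := by
  obtain ⟨p1, p2, p3⟩ := h3
  have hS0 : 0 < S := by linarith
  have s1 : Sc S B ψ u := by
    intro j hj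
    refine (bψ j hj).trans ?_
    exact le_mul_of_one_le_right hB (one_le_pow₀ hS)
  have s2 : Sc S Cg (fun u => (G u : ℂ)) u := p3 S Cg G u hG bG
  have s3 : Sc S Cg (fun u => (β u : ℂ)) u := p3 S Cg β u hβ bβ
  have cG : ContDiff ℝ (⊤ : ℕ∞) fun u => (G u : ℂ) := Complex.ofRealCLM.contDiff.comp hG
  have cβ : ContDiff ℝ (⊤ : ℕ∞) fun u => (β u : ℂ) := Complex.ofRealCLM.contDiff.comp hβ
  have s4 := p1 S Cg Cg _ _ u hS0 cG cβ s2 s3
  have s5 := p1 S B _ _ _ u hS0 hψ (cG.mul cβ) s1 s4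
  have s6 := p2 S C R u hS0 hC hR r1 r2 r3
  have s7 := p1 S _ _ _ _ u hS0 (hψ.mul (cG.mul cβ)) (contDiff_ee.comp hR) s5 s6
  convert! s7 using 2
  simp only [Function.comp]
  push_cast
  ring

/-- mean value inequality on a cell -/
theorem lemMV (h4 : S_der) (f : ℝ × ℝ → ℝ) (hf : ContDiff ℝ (⊤ : ℕ∞) f) (a : ℕ) (k : ℕ × ℕ) (M : ℝ)
    (hM : ∀ y ∈ cell a k, |d1 f y| + |d2 f y| ≤ M) (y : ℝ × ℝ) (hy : y ∈ cell a k) :
    |f y - f (cen a k)| ≤ M * (2 ^ a)⁻¹ := by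
  obtain ⟨-, -, -, -, hfd, -⟩ := h4 f hf
  have hconv : Convex ℝ (cell a k) := (convex_Icc _ _).prod (convex_Icc _ _)
  have hw : cen a k ∈ cell a k := by
    rw [mem_cell]
    simp
  have h1 : ∀ z ∈ cell a k, ‖(d1 f z) • ContinuousLinearMap.fst ℝ ℝ ℝ +
      (d2 f z) • ContinuousLinearMap.snd ℝ ℝ ℝ‖ ≤ M := by
    intro z hz
    refine le_trans ?_ (hM z hz)
    refine (norm_add_le _ _).trans ?_
    rw [norm_smul, norm_smul, Real.norm_eq_abs, Real.norm_eq_abs]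
    have e1 := ContinuousLinearMap.norm_fst_le (𝕜 := ℝ) ℝ ℝ
    have e2 := ContinuousLinearMap.norm_snd_le (𝕜 := ℝ) ℝ ℝ
    have := mul_le_mul_of_nonneg_left e1 (abs_nonneg (d1 f z))
    have := mul_le_mul_of_nonneg_left e2 (abs_nonneg (d2 f z))
    linarith
  have h2 := hconv.norm_image_sub_le_of_norm_hasFDerivWithin_le
    (fun z hz => (hfd z).hasFDerivWithinAt) h1 hw hy
  have hM0 : 0 ≤ M := (norm_nonneg _).trans (h1 _ hw)
  rw [Real.norm_eq_abs] at h2
  refine h2.trans (mul_le_mul_of_nonneg_left ?_ hM0)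
  rw [mem_cell] at hy
  rw [Prod.norm_def]
  exact max_le hy.1 hy.2

theorem J_thm (h1 : S_gg) (h2 : S_osc) (h3 : S_sc) (h4 : S_der) : S_J := by
  intro C₀ B₀
  obtain ⟨hg1, hg2, hg3, Cg, hCg, hg4⟩ := h1
  set C : ℝ := |C₀| with hCdef
  set B : ℝ := |B₀| with hBdef
  have hC0 : 0 ≤ C := abs_nonneg _
  have hB0 : 0 ≤ B := abs_nonneg _
  set K1 : ℝ := 8 * (8 * B * (8 * Cg * Cg)) * (1 + C) ^ 3 with hK1
  have hK10 : 0 ≤ K1 := by positivity
  refine ⟨256 * K1, by positivity, ?_⟩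
  intro ψ g hψ hg a k H x
  set w := cen a k with hw
  set S : ℝ := 2 ^ a with hS
  have hS1 : 1 ≤ S := one_le_pow₀ (by norm_num)
  have hS0 : 0 < S := by linarith
  have e4 : (4 : ℝ) ^ a = S ^ 2 := by rw [hS, ← pow_mul, mul_comm, pow_mul]; norm_num
  have e8 : (8 : ℝ) ^ a = S ^ 3 := by rw [hS, ← pow_mul, mul_comm, pow_mul]; norm_num
  obtain ⟨c1, c2, D1, D2, -, sym, -, -, -⟩ := h4 g hg
  obtain ⟨c11, c12, D11, D12, -, -, -, -, -⟩ := h4 (d1 g) c1
  obtain ⟨c21, c22, D21, D22, -, -, -, -, -⟩ := h4 (d2 g) c2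
  obtain ⟨c111, -, D111, -, -, -, -, -, -⟩ := h4 (d1 (d1 g)) c11
  obtain ⟨-, c222, -, D222, -, -, -, -, -⟩ := h4 (d2 (d2 g)) c22
  have H2 : ∀ y ∈ cell a k, |d1 (d1 g) y| + |d1 (d2 g) y| + |d2 (d2 g) y| ≤ C * S ^ 2 := by
    intro y hy
    refine (H y hy).1.trans ?_
    rw [e4]
    exact mul_le_mul_of_nonneg_right (le_abs_self _) (by positivity)
  have H3 : ∀ y ∈ cell a k, |d1 (d1 (d1 g)) y| + |d2 (d2 (d2 g)) y| ≤ C * S ^ 3 := by
    intro y hy
    refine (H y hy).2.trans ?_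
    rw [e8]
    exact mul_le_mul_of_nonneg_right (le_abs_self _) (by positivity)
  have G1 : ∀ y ∈ cell a k, |d1 g y - d1 g w| ≤ C * S := by
    intro y hy
    refine (lemMV h4 (d1 g) c1 a k (C * S ^ 2) ?_ y hy).trans_eq ?_
    · intro z hz
      have := H2 z hz
      rw [sym z]
      have := abs_nonneg (d2 (d2 g) z)
      linarith
    · rw [← hS]; field_simp
  have G2 : ∀ y ∈ cell a k, |d2 g y - d2 g w| ≤ C * S := by
    intro y hy
    refine (lemMV h4 (d2 g) c2 a k (C * S ^ 2) ?_ y hy).trans_eq ?_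
    · intro z hz
      have := H2 z hz
      have := abs_nonneg (d1 (d1 g) z)
      linarith
    · rw [← hS]; field_simp
  set η1 : ℝ := d1 g w + x.1 with hη1
  set η2 : ℝ := d2 g w + x.2 with hη2
  set R : ℝ × ℝ → ℝ := fun y => g y - g w - d1 g w * (y.1 - w.1) - d2 g w * (y.2 - w.2) with hR
  have cR : ContDiff ℝ (⊤ : ℕ∞) R := by
    rw [hR]
    fun_prop
  set κ : ℝ := g w - d1 g w * w.1 - d2 g w * w.2 with hκ
  set b : ℝ × ℝ → ℂ := fun y => ψ y * ((gg g a y * bet a k y : ℝ) : ℂ) * ee (R y) with hb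
  have cb : ContDiff ℝ (⊤ : ℕ∞) b :=
    (hψ.sm.mul (Complex.ofRealCLM.contDiff.comp ((hg2 g a).mul (hg1 a k)))).mul
      (contDiff_ee.comp cR)
  have hcs : HasCompactSupport b := by
    refine HasCompactSupport.intro (K := Sq) (isCompact_Icc.prod isCompact_Icc) ?_
    intro y hy
    simp only [hb, hψ.supp y hy, zero_mul]
  have hJ : J ψ g a k x = ee κ * ∫ y, b y * ee (η1 * y.1 + η2 * y.2) := by
    unfold J
    rw [← integral_const_mul]
    refine integral_congr_ae (Eventually.of_forall fun y => ?_)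
    have h5 : g y + x.1 * y.1 + x.2 * y.2 = κ + (R y + (η1 * y.1 + η2 * y.2)) := by
      simp only [hκ, hR, hη1, hη2]; ring
    simp only [h5, ee_add, hb]
    ring
  have hvan' : ∀ y : ℝ × ℝ, (S⁻¹ ≤ |y.1 - w.1| ∨ S⁻¹ ≤ |y.2 - w.2|) → b y = 0 := by
    intro y hy
    by_cases h0 : bet a k y = 0
    · simp only [hb, h0, mul_zero, Complex.ofReal_zero, zero_mul]
    · exfalso
      obtain ⟨e1, e2⟩ := hg3 a k y h0
      have f1 : |y.1 - w.1| < S⁻¹ := by
        have h6 : 2 ^ a * y.1 - k.1 = S * (y.1 - w.1) := by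
          rw [hw]; unfold cen; simp only [← hS]; field_simp
        rw [h6, abs_mul, abs_of_pos hS0] at e1
        rw [inv_eq_one_div, lt_div_iff₀ hS0, mul_comm]
        exact e1
      have f2 : |y.2 - w.2| < S⁻¹ := by
        have h6 : 2 ^ a * y.2 - k.2 = S * (y.2 - w.2) := by
          rw [hw]; unfold cen; simp only [← hS]; field_simp
        rw [h6, abs_mul, abs_of_pos hS0] at e2
        rw [inv_eq_one_div, lt_div_iff₀ hS0, mul_comm]
        exact e2
      rcases hy with hy | hy <;> linarith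
  have hvan : ∀ y : ℝ × ℝ, (S⁻¹ < |y.1 - w.1| ∨ S⁻¹ < |y.2 - w.2|) → b y = 0 := fun y hy =>
    hvan' y (hy.imp le_of_lt le_of_lt)
  -- derivatives of `R`
  have R11 : ∀ v, iteratedDeriv 1 (fun u => R (u, v)) = fun u => d1 g (u, v) - d1 g w := by
    intro v
    rw [iteratedDeriv_one]
    funext u
    have h7 := (((D1 (u, v)).sub_const (g w)).sub
      (((hasDerivAt_id u).sub_const w.1).const_mul (d1 g w))).sub_const (d2 g w * (v - w.2))
    rw [mul_one] at h7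
    exact h7.deriv
  have R12 : ∀ v, iteratedDeriv 2 (fun u => R (u, v)) = fun u => d1 (d1 g) (u, v) := by
    intro v
    rw [iteratedDeriv_succ, R11]
    funext u
    exact ((D11 (u, v)).sub_const _).deriv
  have R13 : ∀ v, iteratedDeriv 3 (fun u => R (u, v)) = fun u => d1 (d1 (d1 g)) (u, v) := by
    intro v
    rw [iteratedDeriv_succ, R12]
    funext u
    exact (D111 (u, v)).deriv
  have R21 : ∀ u, iteratedDeriv 1 (fun v => R (u, v)) = fun v => d2 g (u, v) - d2 g w := by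
    intro u
    rw [iteratedDeriv_one]
    funext v
    have h7 := (((D2 (u, v)).sub_const (g w)).sub_const (d1 g w * (u - w.1))).sub
      (((hasDerivAt_id v).sub_const w.2).const_mul (d2 g w))
    rw [mul_one] at h7
    exact h7.deriv
  have R22 : ∀ u, iteratedDeriv 2 (fun v => R (u, v)) = fun v => d2 (d2 g) (u, v) := by
    intro u
    rw [iteratedDeriv_succ, R21]
    funext v
    exact ((D22 (u, v)).sub_const _).deriv
  have R23 : ∀ u, iteratedDeriv 3 (fun v => R (u, v)) = fun v => d2 (d2 (d2 g)) (u, v) := by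
    intro u
    rw [iteratedDeriv_succ, R22]
    funext v
    exact (D222 (u, v)).deriv
  have hBle : B₀ ≤ B := le_abs_self _
  have bd1 : ∀ y ∈ cell a k, Sc S K1 (fun u => b (u, y.2)) y.1 := by
    intro y hy
    have i1 : ContDiff ℝ (⊤ : ℕ∞) fun u : ℝ => ((u, y.2) : ℝ × ℝ) :=
      contDiff_id.prodMk contDiff_const
    refine lemP h3 S B Cg C hS1 hB0 hC0 (fun u => ψ (u, y.2)) (fun u => gg g a (u, y.2))
      (fun u => bet a k (u, y.2)) (fun u => R (u, y.2)) (hψ.sm.comp i1) ((hg2 g a).comp i1)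
      ((hg1 a k).comp i1) (cR.comp i1) y.1 ?_ ?_ ?_ ?_ ?_ ?_
    · intro j hj
      exact (hψ.b1 j hj y).trans hBle
    · intro j hj
      exact ((hg4 a j hj y).2 g).1
    · intro j hj
      exact ((hg4 a j hj y).1 k).1
    · rw [R11]
      exact G1 y hy
    · rw [R12]
      have := H2 y hy
      have := abs_nonneg (d1 (d2 g) y)
      have := abs_nonneg (d2 (d2 g) y)
      change |d1 (d1 g) y| ≤ _
      linarith
    · rw [R13]
      have := H3 y hy
      have := abs_nonneg (d2 (d2 (d2 g)) y)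
      change |d1 (d1 (d1 g)) y| ≤ _
      linarith
  have bd2 : ∀ y ∈ cell a k, Sc S K1 (fun v => b (y.1, v)) y.2 := by
    intro y hy
    have i1 : ContDiff ℝ (⊤ : ℕ∞) fun v : ℝ => ((y.1, v) : ℝ × ℝ) :=
      contDiff_const.prodMk contDiff_id
    refine lemP h3 S B Cg C hS1 hB0 hC0 (fun v => ψ (y.1, v)) (fun v => gg g a (y.1, v))
      (fun v => bet a k (y.1, v)) (fun v => R (y.1, v)) (hψ.sm.comp i1) ((hg2 g a).comp i1)
      ((hg1 a k).comp i1) (cR.comp i1) y.2 ?_ ?_ ?_ ?_ ?_ ?_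
    · intro j hj
      exact (hψ.b2 j hj y).trans hBle
    · intro j hj
      exact ((hg4 a j hj y).2 g).2
    · intro j hj
      exact ((hg4 a j hj y).1 k).2
    · rw [R21]
      exact G2 y hy
    · rw [R22]
      have := H2 y hy
      have := abs_nonneg (d1 (d2 g) y)
      have := abs_nonneg (d1 (d1 g) y)
      change |d2 (d2 g) y| ≤ _
      linarith
    · rw [R23]
      have := H3 y hy
      have := abs_nonneg (d1 (d1 (d1 g)) y)
      change |d2 (d2 (d2 g)) y| ≤ _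
      linarith
  have hcell : ∀ y : ℝ × ℝ, y ∉ cell a k → (S⁻¹ < |y.1 - w.1| ∨ S⁻¹ < |y.2 - w.2|) := by
    intro y hy
    rw [mem_cell, not_and_or, not_le, not_le] at hy
    exact hy
  have hnorm : ∀ y, ‖b y‖ ≤ K1 := by
    intro y
    by_cases hy : y ∈ cell a k
    · have h8 := bd1 y hy 0 (by norm_num)
      rw [iteratedDeriv_zero, pow_zero, mul_one] at h8
      exact h8
    · rw [hvan y (hcell y hy), norm_zero]
      exact hK10
  have hsp : K1 / (S⁻¹) ^ 3 = K1 * S ^ 3 := by rw [inv_pow, div_inv_eq_mul]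
  have hder1 : ∀ y : ℝ × ℝ, ‖iteratedDeriv 3 (fun u => b (u, y.2)) y.1‖ ≤ K1 / (S⁻¹) ^ 3 := by
    intro y
    rw [hsp]
    by_cases hy : y ∈ cell a k
    · exact bd1 y hy 3 le_rfl
    · have h9 : (fun u => b (u, y.2)) =ᶠ[𝓝 y.1] fun _ => 0 := by
        rcases hcell y hy with h | h
        · have h10 : ∀ᶠ u : ℝ in 𝓝 y.1, S⁻¹ < |u - w.1| :=
            (continuous_abs.comp (continuous_id.sub continuous_const)).continuousAt.eventually
              (lt_mem_nhds h)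
          filter_upwards [h10] with u hu
          exact hvan (u, y.2) (Or.inl hu)
        · exact Eventually.of_forall fun u => hvan (u, y.2) (Or.inr h)
      rw [h9.iteratedDeriv_eq]
      simp only [iteratedDeriv_const]
      simp
      positivity
  have hder2 : ∀ y : ℝ × ℝ, ‖iteratedDeriv 3 (fun v => b (y.1, v)) y.2‖ ≤ K1 / (S⁻¹) ^ 3 := by
    intro y
    rw [hsp]
    by_cases hy : y ∈ cell a k
    · exact bd2 y hy 3 le_rfl
    · have h9 : (fun v => b (y.1, v)) =ᶠ[𝓝 y.2] fun _ => 0 := by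
        rcases hcell y hy with h | h
        · exact Eventually.of_forall fun v => hvan (y.1, v) (Or.inl h)
        · have h10 : ∀ᶠ v : ℝ in 𝓝 y.2, S⁻¹ < |v - w.2| :=
            (continuous_abs.comp (continuous_id.sub continuous_const)).continuousAt.eventually
              (lt_mem_nhds h)
          filter_upwards [h10] with v hv
          exact hvan (y.1, v) (Or.inr hv)
      rw [h9.iteratedDeriv_eq]
      simp only [iteratedDeriv_const]
      simp
      positivity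
  have hs0 : 0 < S⁻¹ := inv_pos.2 hS0
  have r1 := lemA h2 b cb hcs w S⁻¹ K1 hs0 hvan hnorm hder1 η1 η2
  have r2 := lemA' h2 b cb hcs w S⁻¹ K1 hs0 hvan hnorm hder2 η1 η2
  rw [hJ, norm_mul, norm_ee, one_mul]
  have hgr : gr g x w = |η1| + |η2| := rfl
  have hfin : ∀ t : ℝ, 0 ≤ t → |η1| + |η2| ≤ 2 * t →
      32 * K1 * S⁻¹ ^ 2 * ((1 + S⁻¹ * t) ^ 3)⁻¹ ≤
        256 * K1 * ((4 ^ a)⁻¹ * wt a (gr g x w)) := by
    intro t ht h
    unfold wt
    rw [hgr, e4, ← hS, div_eq_mul_inv, mul_comm (|η1| + |η2|)]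
    have q0 : 0 ≤ |η1| + |η2| := by positivity
    have q1 : 1 + S⁻¹ * (|η1| + |η2|) ≤ 2 * (1 + S⁻¹ * t) := by
      have := mul_le_mul_of_nonneg_left h hs0.le
      linarith
    have q2 : (1 + S⁻¹ * (|η1| + |η2|)) ^ 3 ≤ 8 * (1 + S⁻¹ * t) ^ 3 := by
      calc _ ≤ (2 * (1 + S⁻¹ * t)) ^ 3 := pow_le_pow_left₀ (by positivity) q1 3
        _ = _ := by ring
    have q3 : ((1 + S⁻¹ * t) ^ 3)⁻¹ ≤ 8 * ((1 + S⁻¹ * (|η1| + |η2|)) ^ 3)⁻¹ := by
      rw [← div_eq_mul_inv, inv_eq_one_div, div_le_div_iff₀ (by positivity) (by positivity)]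
      linarith
    calc 32 * K1 * S⁻¹ ^ 2 * ((1 + S⁻¹ * t) ^ 3)⁻¹
        ≤ 32 * K1 * S⁻¹ ^ 2 * (8 * ((1 + S⁻¹ * (|η1| + |η2|)) ^ 3)⁻¹) :=
          mul_le_mul_of_nonneg_left q3 (by positivity)
      _ = _ := by rw [inv_pow]; ring
  rcases le_total |η1| |η2| with h | h
  · exact r2.trans (hfin _ (abs_nonneg _) (by linarith))
  · exact r1.trans (hfin _ (abs_nonneg _) (by linarith))

end Pool.Agent.W912.PC
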